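import Pool.Agent.helper4.T7.SpecQ

/-!
# Row t7:QTP of project T7 (MP_16912e_nt): the indicator function of an interval between two sums of tents
-/

set_option autoImplicit false

namespace Pool.Agent.T7

open Finset Pool.Agent.helper3.FT Pool.Agent.T5 Pool.Agent.T6

theorem QTP_nonneg (L : ℕ) (m : ℤ) : 0 ≤ tw L m := le_max_left _ _

/-- values of the tent -/
theorem QTP_val (L : ℕ) (hL : 1 ≤ L) (m : ℤ) (h : |(m : ℝ)| ≤ 2 * L + 1) : tw L m = (2 * L + 1 - |(m : ℝ)|) / L := by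
  unfold tw
  apply max_eq_right
  have : (0 : ℝ) < L := by exact_mod_cast hL
  apply div_nonneg _ this.le
  linarith

theorem QTP_zero (L : ℕ) (m : ℤ) (h : 2 * L < |m|) : tw L m = 0 := by
  unfold tw
  apply max_eq_left
  have h1 : (2 * L + 1 : ℤ) ≤ |m| := by omega
  have h2 : (2 * L + 1 : ℝ) ≤ |(m : ℝ)| := by
    have h3 : ((2 * L + 1 : ℤ) : ℝ) ≤ ((|m| : ℤ) : ℝ) := by exact_mod_cast h1
    push_cast at h3
    exact h3
  apply div_nonpos_of_nonpos_of_nonneg _ (Nat.cast_nonneg L)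
  linarith

/-- the two neighbours -/
theorem QTP_two (L : ℕ) (hL : 1 ≤ L) (m : ℤ) : ∃ q s : ℤ, m = q * (2 * L + 1) + s ∧ 0 ≤ s ∧ s ≤ 2 * L ∧
    (∀ j : ℤ, tw L (m - j * (2 * L + 1)) ≠ 0 → j = q ∨ (j = q + 1 ∧ 1 ≤ s)) ∧
    ∑ j ∈ ({q, q + 1} : Finset ℤ), tw L (m - j * (2 * L + 1)) = (2 * L + 1) / L := by
  have hP : (0 : ℤ) < 2 * L + 1 := by omega
  obtain ⟨q, hq⟩ : ∃ q : ℤ, q = m / (2 * L + 1) := ⟨_, rfl⟩
  obtain ⟨s, hs⟩ : ∃ s : ℤ, s = m % (2 * L + 1) := ⟨_, rfl⟩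
  have h0 : 0 ≤ s := by rw [hs]; exact Int.emod_nonneg _ hP.ne'
  have h1 : s < 2 * L + 1 := by rw [hs]; exact Int.emod_lt_of_pos _ hP
  have hm : m = q * (2 * L + 1) + s := by
    rw [hq, hs, mul_comm]
    exact (Int.mul_ediv_add_emod m (2 * L + 1)).symm
  refine ⟨q, s, hm, h0, by omega, ?_, ?_⟩
  · intro j hj
    have h2 : ¬ (2 * (L : ℤ) < |m - j * (2 * L + 1)|) := fun h => hj (QTP_zero L _ h)
    rw [not_lt, abs_le] at h2
    have e1 : m - j * (2 * L + 1) = (q - j) * (2 * L + 1) + s := by rw [hm]; ring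
    rw [e1] at h2
    have k1 : -1 ≤ q - j := by
      by_contra hc
      have hc' : q - j ≤ -2 := by omega
      have : (q - j) * (2 * L + 1) ≤ -2 * (2 * L + 1) := mul_le_mul_of_nonneg_right hc' hP.le
      omega
    have k2 : q - j ≤ 0 := by
      by_contra hc
      have hc' : 1 ≤ q - j := by omega
      have : 1 * (2 * (L : ℤ) + 1) ≤ (q - j) * (2 * L + 1) := mul_le_mul_of_nonneg_right hc' hP.le
      omega
    by_cases hjq : j = q
    · exact Or.inl hjq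
    · right
      have k3 : j = q + 1 := by omega
      refine ⟨k3, ?_⟩
      rw [k3] at h2
      have : (q - (q + 1)) * (2 * (L : ℤ) + 1) = -(2 * L + 1) := by ring
      rw [this] at h2
      omega
  · rw [Finset.sum_pair (by omega)]
    have e1 : m - q * (2 * L + 1) = s := by rw [hm]; ring
    have e2 : m - (q + 1) * (2 * L + 1) = s - (2 * L + 1) := by rw [hm]; ring
    have hLr : (0 : ℝ) < L := by exact_mod_cast hL
    have hs0 : (0 : ℝ) ≤ (s : ℝ) := by exact_mod_cast h0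
    have hs1 : (s : ℝ) ≤ 2 * L + 1 := by exact_mod_cast h1.le
    have a1 : |(s : ℝ)| = s := abs_of_nonneg hs0
    have a2 : |((s - (2 * L + 1) : ℤ) : ℝ)| = 2 * L + 1 - s := by
      push_cast
      rw [abs_of_nonpos (by linarith)]
      ring
    rw [e1, e2, QTP_val L hL s (by rw [a1]; exact hs1), QTP_val L hL _ (by rw [a2]; linarith), a1, a2]
    field_simp
    ring

theorem QTP_le (L : ℕ) (hL : 1 ≤ L) (J : Finset ℤ) (m : ℤ) : ∑ j ∈ J, tw L (m - j * (2 * L + 1)) ≤ (2 * L + 1) / L := by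
  classical
  obtain ⟨q, s, -, -, -, h4, h5⟩ := QTP_two L hL m
  rw [← h5]
  have h6 : ∑ j ∈ J, tw L (m - j * (2 * L + 1)) ≤ ∑ j ∈ J ∪ {q, q + 1}, tw L (m - j * (2 * L + 1)) :=
    Finset.sum_le_sum_of_subset_of_nonneg Finset.subset_union_left fun j _ _ => QTP_nonneg L _
  refine h6.trans (le_of_eq ?_)
  symm
  refine Finset.sum_subset Finset.subset_union_right fun j _ hj => ?_
  by_contra hne
  apply hj
  rcases h4 j hne with h | ⟨h, -⟩
  · rw [h]; simp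
  · rw [h]; simp

theorem QTP_sum (L : ℕ) (hL : 1 ≤ L) : ∑ m ∈ Icc (-(2 * L : ℤ)) (2 * L), tw L m = (2 * L + 1) ^ 2 / L := by
  have hLr : (0 : ℝ) < L := by exact_mod_cast hL
  have hev : Function.Even (tw L) := by
    intro m
    unfold tw
    push_cast
    rw [abs_neg]
  have h1 := Finset.sum_Icc_of_even_eq_range hev (2 * L)
  have e : ((2 * L : ℕ) : ℤ) = 2 * (L : ℤ) := by push_cast; ring
  rw [e] at h1
  rw [h1]
  have h2 : ∑ m ∈ range (2 * L + 1), tw L (m : ℤ) = ∑ m ∈ range (2 * L + 1), ((2 * L + 1 : ℝ) - m) / L := by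
    refine Finset.sum_congr rfl fun m hm => ?_
    rw [Finset.mem_range] at hm
    have hm' : (m : ℝ) ≤ 2 * L + 1 := by exact_mod_cast hm.le
    have a1 : |((m : ℤ) : ℝ)| = m := by
      rw [Int.cast_natCast]
      exact abs_of_nonneg (Nat.cast_nonneg m)
    rw [QTP_val L hL _ (by rw [a1]; exact hm'), a1]
  rw [h2, ← Finset.sum_div, Finset.sum_sub_distrib, Finset.sum_const, Finset.card_range]
  have h3 : (∑ m ∈ range (2 * L + 1), (m : ℝ)) * 2 = (2 * L + 1) * (2 * L) := by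
    have h4 := Finset.sum_range_id_mul_two (2 * L + 1)
    have h5 : ((∑ m ∈ range (2 * L + 1), m : ℕ) : ℝ) * 2 = ((2 * L + 1) * (2 * L) : ℕ) := by
      have h6 : (∑ m ∈ range (2 * L + 1), m) * 2 = (2 * L + 1) * (2 * L) := by
        rw [h4]
        congr 1
      exact_mod_cast h6
    push_cast at h5
    exact h5
  have h0 : tw L 0 = (2 * L + 1) / L := by
    rw [QTP_val L hL 0 (by simp; positivity)]
    simp
  rw [h0]
  simp only [nsmul_eq_mul]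
  push_cast
  have h7 : (∑ m ∈ range (2 * L + 1), (m : ℝ)) = (2 * L + 1) * L := by linarith
  rw [h7]
  field_simp
  ring

theorem QTP : QTP_stmt := by
  classical
  intro L x y hL hxy
  have hLr : (1 : ℝ) ≤ L := by exact_mod_cast hL
  have hLr0 : (0 : ℝ) < L := by linarith
  have hP : (0 : ℝ) < 2 * L + 1 := by linarith
  have hnn : 0 ≤ (L : ℝ) / (2 * L + 1) := by positivity
  have hone : (L : ℝ) / (2 * L + 1) * ((2 * L + 1) / L) = 1 := by field_simp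
  obtain ⟨a, ha⟩ : ∃ a : ℝ, a = (x - 2 * L) / (2 * L + 1) := ⟨_, rfl⟩
  obtain ⟨b, hb⟩ : ∃ b : ℝ, b = (y + 2 * L) / (2 * L + 1) := ⟨_, rfl⟩
  obtain ⟨a', ha'⟩ : ∃ a : ℝ, a = (x + 2 * L) / (2 * L + 1) := ⟨_, rfl⟩
  obtain ⟨b', hb'⟩ : ∃ b : ℝ, b = (y - 2 * L) / (2 * L + 1) := ⟨_, rfl⟩
  have haP : a * (2 * L + 1) = x - 2 * L := by rw [ha]; field_simp
  have hbP : b * (2 * L + 1) = y + 2 * L := by rw [hb]; field_simp
  have haP' : a' * (2 * L + 1) = x + 2 * L := by rw [ha']; field_simp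
  have hbP' : b' * (2 * L + 1) = y - 2 * L := by rw [hb']; field_simp
  have hmem : ∀ j : ℤ, j ∈ Ioc ⌊a⌋ ⌊b⌋ ↔ x - 2 * L < j * (2 * L + 1) ∧ (j : ℝ) * (2 * L + 1) ≤ y + 2 * L := by
    intro j
    rw [Finset.mem_Ioc, Int.floor_lt, Int.le_floor, ← haP, ← hbP, mul_lt_mul_iff_left₀ hP, mul_le_mul_iff_left₀ hP]
  have hmem' : ∀ j : ℤ, j ∈ Ioc ⌊a'⌋ ⌊b'⌋ ↔ x + 2 * L < j * (2 * L + 1) ∧ (j : ℝ) * (2 * L + 1) ≤ y - 2 * L := by
    intro j
    rw [Finset.mem_Ioc, Int.floor_lt, Int.le_floor, ← haP', ← hbP', mul_lt_mul_iff_left₀ hP, mul_le_mul_iff_left₀ hP]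
  refine ⟨Ioc ⌊a⌋ ⌊b⌋, Ioc ⌊a'⌋ ⌊b'⌋, ?_, ?_, ?_, ?_, ?_, ?_, ?_⟩
  · -- (1)
    have hab : a ≤ b := by
      have : a * (2 * L + 1) ≤ b * (2 * L + 1) := by rw [haP, hbP]; linarith
      exact le_of_mul_le_mul_right this hP
    have hfl : ⌊a⌋ ≤ ⌊b⌋ := Int.floor_le_floor hab
    have hc : ((Ioc ⌊a⌋ ⌊b⌋).card : ℝ) = (⌊b⌋ : ℝ) - ⌊a⌋ := by
      rw [Int.card_Ioc]
      have : (((⌊b⌋ - ⌊a⌋).toNat : ℤ) : ℝ) = ((⌊b⌋ - ⌊a⌋ : ℤ) : ℝ) := by
        rw [Int.toNat_of_nonneg (by omega)]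
      rw [Int.cast_natCast] at this
      rw [this, Int.cast_sub]
    rw [hc]
    have h1 := Int.floor_le b
    have h2 := Int.lt_floor_add_one a
    have h3 : ((⌊b⌋ : ℝ) - ⌊a⌋) * (2 * L + 1) ≤ (b - (a - 1)) * (2 * L + 1) :=
      mul_le_mul_of_nonneg_right (by linarith) hP.le
    have h4 : (b - (a - 1)) * (2 * L + 1) = b * (2 * L + 1) - a * (2 * L + 1) + (2 * L + 1) := by ring
    rw [h4, haP, hbP] at h3
    linarith
  · -- (2)
    have hc : (⌊b'⌋ : ℝ) - ⌊a'⌋ ≤ ((Ioc ⌊a'⌋ ⌊b'⌋).card : ℝ) := by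
      rw [Int.card_Ioc]
      have h1 : (⌊b'⌋ - ⌊a'⌋ : ℤ) ≤ ((⌊b'⌋ - ⌊a'⌋).toNat : ℤ) := Int.self_le_toNat _
      have h2 : ((⌊b'⌋ - ⌊a'⌋ : ℤ) : ℝ) ≤ (((⌊b'⌋ - ⌊a'⌋).toNat : ℤ) : ℝ) := by exact_mod_cast h1
      rw [Int.cast_natCast, Int.cast_sub] at h2
      exact h2
    have h1 := Int.lt_floor_add_one b'
    have h2 := Int.floor_le a'
    have h3 : (b' - 1 - a') * (2 * L + 1) ≤ ((Ioc ⌊a'⌋ ⌊b'⌋).card : ℝ) * (2 * L + 1) :=
      mul_le_mul_of_nonneg_right (by linarith) hP.le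
    have h4 : (b' - 1 - a') * (2 * L + 1) = b' * (2 * L + 1) - a' * (2 * L + 1) - (2 * L + 1) := by ring
    rw [h4, haP', hbP'] at h3
    linarith
  · -- (3)
    by_cases hfl : ⌊b'⌋ ≤ ⌊a'⌋
    · rw [Finset.Ioc_eq_empty (by omega), Finset.card_empty]
      simp
      linarith
    · have hc : ((Ioc ⌊a'⌋ ⌊b'⌋).card : ℝ) = (⌊b'⌋ : ℝ) - ⌊a'⌋ := by
        rw [Int.card_Ioc]
        have : (((⌊b'⌋ - ⌊a'⌋).toNat : ℤ) : ℝ) = ((⌊b'⌋ - ⌊a'⌋ : ℤ) : ℝ) := by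
          rw [Int.toNat_of_nonneg (by omega)]
        rw [Int.cast_natCast] at this
        rw [this, Int.cast_sub]
      rw [hc]
      have h1 := Int.floor_le b'
      have h2 := Int.lt_floor_add_one a'
      have h3 : ((⌊b'⌋ : ℝ) - ⌊a'⌋) * (2 * L + 1) ≤ (b' - (a' - 1)) * (2 * L + 1) :=
        mul_le_mul_of_nonneg_right (by linarith) hP.le
      have h4 : (b' - (a' - 1)) * (2 * L + 1) = b' * (2 * L + 1) - a' * (2 * L + 1) + (2 * L + 1) := by ring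
      rw [h4, haP', hbP'] at h3
      linarith
  · -- (4)
    intro m hm1 hm2
    obtain ⟨q, s, hm, h0, h1, h4, h5⟩ := QTP_two L hL m
    have h6 : ∑ j ∈ Ioc ⌊a⌋ ⌊b⌋, tw L (m - j * (2 * L + 1)) = (2 * L + 1) / L := by
      rw [← h5]
      have k1 : ∑ j ∈ Ioc ⌊a⌋ ⌊b⌋, tw L (m - j * (2 * L + 1)) = ∑ j ∈ Ioc ⌊a⌋ ⌊b⌋ ∪ {q, q + 1}, tw L (m - j * (2 * L + 1)) := by
        refine Finset.sum_subset Finset.subset_union_left fun j _ hj => ?_
        by_contra hne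
        apply hj
        rw [hmem]
        have h7 : ¬ (2 * (L : ℤ) < |m - j * (2 * L + 1)|) := fun h => hne (QTP_zero L _ h)
        rw [not_lt, abs_le] at h7
        have k2 : (-(2 * L : ℝ)) ≤ (m : ℝ) - j * (2 * L + 1) := by exact_mod_cast h7.1
        have k3 : (m : ℝ) - j * (2 * L + 1) ≤ 2 * L := by exact_mod_cast h7.2
        constructor
        · linarith
        · linarith
      rw [k1]
      symm
      refine Finset.sum_subset Finset.subset_union_right fun j _ hj => ?_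
      by_contra hne
      apply hj
      rcases h4 j hne with h | ⟨h, -⟩
      · rw [h]; simp
      · rw [h]; simp
    rw [h6, hone]
  · -- (5)
    intro m
    calc (L : ℝ) / (2 * L + 1) * ∑ j ∈ Ioc ⌊a'⌋ ⌊b'⌋, tw L (m - j * (2 * L + 1))
        ≤ (L : ℝ) / (2 * L + 1) * ((2 * L + 1) / L) := mul_le_mul_of_nonneg_left (QTP_le L hL _ m) hnn
      _ = 1 := hone
  · -- (6)
    intro m hm
    refine Finset.sum_eq_zero fun j hj => ?_
    by_contra hne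
    apply hm
    rw [hmem'] at hj
    have h7 : ¬ (2 * (L : ℤ) < |m - j * (2 * L + 1)|) := fun h => hne (QTP_zero L _ h)
    rw [not_lt, abs_le] at h7
    have k2 : (-(2 * L : ℝ)) ≤ (m : ℝ) - j * (2 * L + 1) := by exact_mod_cast h7.1
    have k3 : (m : ℝ) - j * (2 * L + 1) ≤ 2 * L := by exact_mod_cast h7.2
    constructor
    · linarith
    · linarith
  · exact QTP_sum L hL

end Pool.Agent.T7
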