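import Pool.Agent.helper85.T7.SpecS

set_option autoImplicit false

/-!
# T7, row SLB7: tuples with fundamental discriminant (port of `Pool/Agent/helper3/T5/SLB.lean`)
-/

namespace Pool.Agent.T7

open Finset NumberField Pool.Agent.helper3.FT Pool.Agent.helper47.RA Pool.Agent.T5 Pool.Agent.T6

variable {K : Type} [Field K] [NumberField K]

theorem SLB7_ex {Q : QF K} {φ : Ideal (𝓞 K) → 𝓞 K → Tpl} {κ N Y Y₂ : ℝ}
    (p1 : ∀ a α γ, Adm Q a α γ → TupOf Q a α γ (gd Q α γ) (φ a α))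
    (p3 : ∀ (t : Tpl) (f : ℕ), 1 ≤ f → IsT t → 0 < t.2.2.2 → 0 < lam t → dis t = Q.D * (f : ℤ) ^ 2 →
      IsCoprime (f : ℤ) (t.2.2.2 * lam t) →
      ∃ a α γ, Adm Q a α γ ∧ gd Q α γ = f ∧ φ a α = t ∧ (a ^ 5).IsPrincipal ∧
        (1 < t.2.2.2 → 4 * t.2.2.2 < -Q.D → ¬ a.IsPrincipal))
    (hκ : 0 < κ) (hN : 10 ≤ N) (hY : 2 < Y) (hYN : 8 * Y < N) (hY2pos : 0 < Y₂) (w : ℕ) (t : Tpl)
    (ht : Cen κ N Y Y₂ t) (hD : dis t = Q.D) (hD0 : Q.D < 0) :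
    ∃ x : Ideal (𝓞 K) × 𝓞 K, x ∈ G07 Q N Y Y₂ ∧ fw w t = wt Q w x.1 x.2 ∧ φ x.1 x.2 = t := by
  have hNpos : 0 < N := by linarith
  have hZ1 : 1 < t.2.2.2 := by
    have h1 := ht.z1
    have h2 : ((1 : ℤ) : ℝ) < (t.2.2.2 : ℝ) := by push_cast; linarith
    exact_mod_cast h2
  have hL : 0 < lam t := by
    have h1 := ht.l1
    have h2 : (0 : ℝ) < (lam t : ℝ) := lt_of_lt_of_le (by positivity) h1
    exact_mod_cast h2
  have hZD : 4 * t.2.2.2 < -Q.D := by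
    have h1 := ht.z2
    have h2 := ht.d1
    rw [hD] at h2
    have h3 : ((4 * t.2.2.2 : ℤ) : ℝ) < ((-Q.D : ℤ) : ℝ) := by push_cast; linarith
    exact_mod_cast h3
  obtain ⟨a, α, γ, hA, hg, hφ, h5, hnp⟩ := p3 t 1 le_rfl ht.tt (by omega) hL
    (by rw [hD]; simp) (by simpa using isCoprime_one_left)
  have hT := p1 a α γ hA
  rw [hg, hφ] at hT
  have hcen : Cen κ (N * ((1 : ℕ) : ℝ) ^ 2) Y Y₂ t := by simpa using ht
  obtain ⟨c1, c2, -, -, c5, -⟩ := (ACEN K Q hD0 a α γ 1 t hA hT le_rfl κ N Y Y₂ hNpos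
    (by linarith) hY2pos).1 hcen
  refine ⟨(a, α), ⟨⟨hA.ne, hA.pa, h5, hnp hZ1 hZD, c1, c2⟩, ⟨hA.mem, hA.n0, c5⟩, γ, hA, hg⟩,
    SLB_fw w hT, hφ⟩

theorem SLB7_G0_fin (Q : QF K) (hD : Q.D < 0) (N Y Y₂ : ℝ) :
    (G07 Q N Y Y₂).Finite := by
  have h1 : (⋃ a ∈ IA K Y, ({a} : Set (Ideal (𝓞 K))) ×ˢ AL Q a (Y₂ * √(-(Q.D : ℝ)) / √N)).Finite :=
    Set.Finite.biUnion (SFA.1 K Y) (fun a _ => (Set.finite_singleton a).prod (SFA.2.1 K Q hD a _))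
  refine h1.subset ?_
  rintro ⟨a, α⟩ ⟨ha, hα, -⟩
  simp only [Set.mem_iUnion]
  exact ⟨a, ha, Set.mem_prod.2 ⟨rfl, hα⟩⟩

theorem SLB7 : SLB7_stmt := by
  classical
  intro κ N Y Y₂ hκ hN hY hYN hY2 w F hF
  have hNpos : 0 < N := by linarith
  have hmaps : ∀ t ∈ F, dis t ∈ DN N := by
    intro t ht
    obtain ⟨hc, hf⟩ := hF t ht
    have h1 := hc.d1
    have h2 := hc.d2
    unfold DN
    rw [mem_filter, mem_Icc]
    refine ⟨⟨?_, ?_⟩, hf, h1⟩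
    · have h3 : ((-dis t : ℤ) : ℝ) ≤ N := by push_cast; exact h2
      have h4 : -dis t ≤ ⌊N⌋ := Int.le_floor.2 h3
      linarith
    · have h3 : (dis t : ℝ) < ((0 : ℤ) : ℝ) := by push_cast; linarith
      have h4 : dis t < 0 := by exact_mod_cast h3
      omega
  rw [← sum_fiberwise_of_maps_to hmaps]
  refine sum_le_sum ?_
  intro D hD
  unfold DN at hD
  rw [mem_filter, mem_Icc] at hD
  obtain ⟨⟨hD1, hD2⟩, hfund, hD3⟩ := hD
  have hDneg : D < 0 := by omega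
  have hne : Nonempty (Fld D) := SFA.2.2 D hfund hDneg
  unfold SF
  rw [dif_pos hne]
  set E := hne.some with hE
  have hED : E.Q.D = D := E.hD
  have hED0 : E.Q.D < 0 := by rw [hED]; exact hDneg
  have hED4 : E.Q.D < -4 := by
    rw [hED]
    have h1 : (D : ℝ) < ((-4 : ℤ) : ℝ) := by push_cast; linarith
    exact_mod_cast h1
  obtain ⟨φ, p1, p2, p3⟩ := all_ALG E.K E.Q E.fin hED4
  have hfin := SLB7_G0_fin E.Q hED0 N Y Y₂
  show _ ≤ ∑ᶠ x ∈ G07 E.Q N Y Y₂, wt E.Q w x.1 x.2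
  rw [finsum_mem_eq_finite_toFinset_sum _ hfin]
  have hex : ∀ t ∈ F.filter (fun t => dis t = D), ∃ x : Ideal (𝓞 E.K) × 𝓞 E.K,
      x ∈ G07 E.Q N Y Y₂ ∧ fw w t = wt E.Q w x.1 x.2 ∧ φ x.1 x.2 = t := by
    intro t ht
    rw [mem_filter] at ht
    exact SLB7_ex p1 p3 hκ hN hY hYN hY2 w t (hF t ht.1).1 (by rw [ht.2, hED]) hED0
  choose! ψ hψ using hex
  have hinj : Set.InjOn ψ (F.filter (fun t => dis t = D) : Finset Tpl) := by
    intro t ht t' ht' h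
    have h1 := (hψ t (by exact_mod_cast ht)).2.2
    have h2 := (hψ t' (by exact_mod_cast ht')).2.2
    rw [← h1, ← h2, h]
  calc ∑ t ∈ F.filter (fun t => dis t = D), fw w t
      = ∑ t ∈ F.filter (fun t => dis t = D), wt E.Q w (ψ t).1 (ψ t).2 :=
        sum_congr rfl (fun t ht => (hψ t ht).2.1)
    _ = ∑ x ∈ (F.filter (fun t => dis t = D)).image ψ, wt E.Q w x.1 x.2 :=
        (sum_image (f := fun x : Ideal (𝓞 E.K) × 𝓞 E.K => wt E.Q w x.1 x.2) hinj).symm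
    _ ≤ ∑ x ∈ hfin.toFinset, wt E.Q w x.1 x.2 := by
        refine sum_le_sum_of_subset_of_nonneg ?_ ?_
        · intro x hx
          obtain ⟨t, ht, rfl⟩ := mem_image.1 hx
          exact (Set.Finite.mem_toFinset hfin).2 (hψ t ht).1
        · intro x _ _
          exact (SMW.2.2.2 E.K E.Q w x.1 x.2).1

end Pool.Agent.T7
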